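import Pool.Agent.H97.HV.Targets
import Pool.Agent.H7.HD.All
import Pool.Agent.H20.HD.CS

/-!
Board hov (HOD(V_ γ)), row YR: small cofinal subsets, uniformly.
-/

open Ordinal Cardinal Order Set
open _root_.HD _root_.HD.PRK _root_.HD.HV

universe u

namespace Pool.Agent.H13.HVY

/-- few elements, in terms of the indices -/
theorem few_nth {K : Cardinal.{u}} {S : Set Ordinal.{u}} :
    Few K.ord S ↔ ∃ a < K.ord, ¬ ∃ z, nth S a z := by
  constructor
  · exact fun h => Pool.Agent.H20.HD.CS.idx_of_few All.vh h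
  · rintro ⟨a, ha, hn⟩
    rcases (All.vh S).2.2.2 K.ord with h | h
    · exact h
    · exact absurd (h a ha) hn

/-- the condition on the code -/
def Pc (en : Ordinal.{u} → ZFSet.{u}) (δ α c : Ordinal.{u}) : Prop :=
  (∀ x, x ∈ E en c → x < α) ∧ Few δ (E en c) ∧ ∀ b < α, ∃ x, b ≤ x ∧ x ∈ E en c

theorem do_Pc {en : Ordinal.{u} → ZFSet.{u}} (hen : EN en) (K : Cardinal.{u}) :
    DO fun w => Pc en K.ord (w 0) (w 1) := by
  have hE := (All.ea en hen).1
  have h1 : DO fun w : ℕ → Ordinal.{u} => ∀ x, x ∈ E en (w 1) → x < w 0 :=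
    DO.all (R := fun x w => x ∈ E en (w 1) → x < w 0)
      ((DO.s2 (X := fun a c => a ∈ E en c) hE 0 2).imp (DO.lt 0 1))
  have h2 : DO fun w : ℕ → Ordinal.{u} => nth {a | a ∈ E en (w 2)} (w 0) (w 1) := by
    have := All.db (fun a w => a ∈ E en (w 0)) hE
    exact this
  have h3 : DO fun w : ℕ → Ordinal.{u} => Few K.ord (E en (w 1)) := by
    have h4 : DO fun w : ℕ → Ordinal.{u} => ∃ a < K.ord, ¬ ∃ z, nth {x | x ∈ E en (w 1)} a z :=
      DO.exLtc (R := fun a w => ¬ ∃ z, nth {x | x ∈ E en (w 1)} a z) K.ord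
        (DO.ex (R := fun z w => nth {x | x ∈ E en (w 2)} (w 0) z)
          (DO.s3 (X := fun a z c => nth {x | x ∈ E en c} a z) h2 1 0 3)).not
    exact h4.congr fun w => few_nth
  have h5 : DO fun w : ℕ → Ordinal.{u} => ∀ b < w 0, ∃ x, b ≤ x ∧ x ∈ E en (w 1) :=
    DO.allLt (R := fun b w => ∃ x, b ≤ x ∧ x ∈ E en (w 1)) 0
      (DO.ex (R := fun x w => w 0 ≤ x ∧ x ∈ E en (w 2))
        ((DO.le 1 0).and (DO.s2 (X := fun a c => a ∈ E en c) hE 0 3)))
  exact h1.and (h3.and h5)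

theorem pf_YR (h : T_YA.{u}) : T_YR.{u} := by
  intro δ hδ hA
  obtain ⟨en, hen⟩ := All.en
  obtain ⟨η, _, θ, j, hj⟩ := All.xa δ hδ 0
  obtain ⟨D, hD, -⟩ := All.xb δ η θ j hj
  subst hD
  refine ⟨fun α η => ∃ c, (Pc en D.ord α c ∧ ∀ c' < c, ¬ Pc en D.ord α c') ∧ η ∈ E en c,
    ?_, ?_⟩
  · have hP := do_Pc hen D
    have hE := (All.ea en hen).1
    exact DO.ex (R := fun c w => (Pc en D.ord (w 0) c ∧ ∀ c' < c, ¬ Pc en D.ord (w 0) c') ∧
        w 1 ∈ E en c)
      (((DO.s2 (X := fun a c => Pc en D.ord a c) hP 1 0).and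
        (DO.allLt (R := fun c' w => ¬ Pc en D.ord (w 1) c') 0
          (DO.s2 (X := fun a c => Pc en D.ord a c) hP 2 0).not)).and
        (DO.s2 (X := fun a c => a ∈ E en c) hE 2 0))
  · intro α hα hcof
    obtain ⟨y, hy, hsub, hfew, hunb⟩ := h D.ord hδ hA α hα hcof
    obtain ⟨c0, hc0⟩ := (hen.od y).1 hy
    have hP0 : Pc en D.ord α c0 := by
      refine ⟨?_, ?_, ?_⟩
      · intro x hx
        have hx' : x.toZFSet ∈ en c0 := hx
        rw [hc0] at hx'
        exact toZFSet_mem_toZFSet_iff.1 (hsub hx')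
      · have : E en c0 = {a | a.toZFSet ∈ y} := by
          unfold E
          rw [hc0]
        rw [this]
        exact hfew
      · intro b hb
        obtain ⟨c, _, hbc, hcy⟩ := hunb b hb
        refine ⟨c, hbc, ?_⟩
        show c.toZFSet ∈ en c0
        rw [hc0]
        exact hcy
    obtain ⟨c1, hc1, hmin⟩ := WellFounded.has_min (α := Ordinal.{u}) Ordinal.lt_wf
      {c | Pc en D.ord α c} ⟨c0, hP0⟩
    have huniq : ∀ c, (Pc en D.ord α c ∧ ∀ c' < c, ¬ Pc en D.ord α c') → c = c1 := by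
      intro c hc
      rcases lt_trichotomy c c1 with h1 | h1 | h1
      · exact absurd h1 (hmin c hc.1)
      · exact h1
      · exact absurd hc1 (hc.2 c1 h1)
    have hspec : Pc en D.ord α c1 ∧ ∀ c' < c1, ¬ Pc en D.ord α c' :=
      ⟨hc1, fun c' hc' hP => hmin c' hP hc'⟩
    have hset : {η | ∃ c, (Pc en D.ord α c ∧ ∀ c' < c, ¬ Pc en D.ord α c') ∧ η ∈ E en c} =
        E en c1 := by
      ext x
      constructor
      · rintro ⟨c, hc, hx⟩
        rw [huniq c hc] at hx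
        exact hx
      · intro hx
        exact ⟨c1, hspec, hx⟩
    refine ⟨?_, ?_, ?_⟩
    · rintro x ⟨c, hc, hx⟩
      exact hc.1.1 x hx
    · rw [hset]
      exact hc1.2.1
    · intro b hb
      obtain ⟨x, hbx, hx⟩ := hc1.2.2 b hb
      exact ⟨x, hbx, c1, hspec, hx⟩

end Pool.Agent.H13.HVY
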